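import Pool.Agent.Helper88.GL.Final

set_option autoImplicit false

/-!
An index which satisfies condition (i) at every set and is degree invariant almost everywhere and
along the jump hierarchy.
-/

namespace Pool.Agent.Results.MP_57825d_lc.AlmostEverywhere

open Pool.Agent.Helper227 Pool.Agent.H548R2.Post Pool.Agent.Helper88.GL MeasureTheory

/-- For every computable well-ordering of the natural numbers there is an index satisfying
condition (i) at every set, and condition (ii) at almost every set and at every level of the jump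
hierarchy along the well-ordering. -/
theorem result (r : ℕ → ℕ → Prop) (hr : ComputablePred fun x : ℕ × ℕ => r x.1 x.2)
    (hw : IsWellOrder ℕ r) : ∃ (J : ℕ → ℕ → Bool) (e : ℕ), IsHier r J ∧
    (∀ X : ℕ → Bool, Btw e X) ∧
    (∀ᵐ X ∂lam, ∀ Y : ℕ → Bool, TEq X Y → TEq (chr (WE X e)) (chr (WE Y e))) ∧
    ∀ (b : ℕ) (X Y : ℕ → Bool), TEq X (J b) → TEq X Y →
      TEq (chr (WE X e)) (chr (WE Y e)) := by
  have hwf : WellFounded r := (inferInstance : IsWellFounded ℕ r).wf
  obtain ⟨J, hJ⟩ := exists_hier hwf
  obtain ⟨e, h1, h2, h3⟩ := almost_everywhere_hier hr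
    (fun a b c h h' => _root_.trans (r := r) h h') (fun a b => trichotomous_of r a b) hwf hJ
  exact ⟨J, e, hJ, h1, h2, h3⟩

end Pool.Agent.Results.MP_57825d_lc.AlmostEverywhere
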