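import Pool.Agent.Helper88.GL.Final

set_option autoImplicit false

/-!
Partial degree invariant solutions to the problem of Post extend to total ones.
-/

namespace Pool.Agent.Results.MP_57825d_lc.Gluing

open Pool.Agent.Helper227 Pool.Agent.H548R2.Post Pool.Agent.Helper88.GL

/-- Every partial solution that is given by a lightface third level relation extends to a single
index satisfying condition (i) at every set. -/
theorem result {P : (ℕ → Bool) → ℕ → Prop} (hP : PartSol P) : ∃ e : ℕ,
    (∀ X : ℕ → Bool, Btw e X) ∧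
    (∀ (X : ℕ → Bool) (v : ℕ), P X v → ∀ Y : ℕ → Bool, TEq X Y →
      TEq (chr (WE Y e)) (chr (WE X v))) ∧
    ∀ Y : ℕ → Bool, (¬ ∃ X v, P X v ∧ TEq X Y) → TLe (jump (chr (WE Y e))) (jump Y) := by
  obtain ⟨e, h1, h2, h3⟩ := gluing hP.1 hP.2.1 hP.2.2
  exact ⟨e, h1, fun X v hX Y hXY => h2 X v Y hX hXY, h3⟩

end Pool.Agent.Results.MP_57825d_lc.Gluing
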