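import Pool.Agent.Helper88.GL.Final

set_option autoImplicit false

/-!
A local to global principle, in the sense of category, for degree invariant solutions.
-/

namespace Pool.Agent.Results.MP_57825d_lc.Nonmeager

open Pool.Agent.Helper227 Pool.Agent.H548R2.Post Pool.Agent.Helper88.GL

/-- There is a degree invariant solution if and only if there is one on some nonmeager class
of the third level, and if and only if some partial solution of the third level meets nonmeager
many degrees. -/
theorem result : List.TFAE [
    ∃ e : ℕ, Sol e,
    ∃ (e : ℕ) (S : (ℕ → Bool) → Prop), Sg3c S ∧ ¬ IsMeagre {X | S X} ∧ (∀ X, S X → Btw e X) ∧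
      ∀ X Y, S X → S Y → TEq X Y → TEq (chr (WE X e)) (chr (WE Y e)),
    ∃ P : (ℕ → Bool) → ℕ → Prop, PartSol P ∧
      ¬ IsMeagre {Y : ℕ → Bool | ∃ X v, P X v ∧ TEq X Y}] := tfae

end Pool.Agent.Results.MP_57825d_lc.Nonmeager
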